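import Pool.Agent.WR4.Stmts

/-! # CNU: counting classes (WR4, MP_0f3fac_nt) -/

set_option autoImplicit false

namespace Pool.Agent.WR4.H65

open Pool.Agent.WIR Pool.Agent.WR2 Pool.Agent.WR3 Pool.Agent.WR4
open scoped BigOperators ENNReal Topology

/-- sums of a periodic function with values in `[0, 1]` -/
theorem per_sum65 (N : ℕ) (f : ℕ → ℝ) (hf : Lv N f) (h0 : ∀ a, 0 ≤ f a) (h1 : ∀ a, f a ≤ 1)
    (X : ℕ) : |(∑ a ∈ Finset.Icc 1 X, f a) - X * av N f| ≤ 3 ^ N := by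
  have hshift : ∀ Y : ℕ, (∑ a ∈ Finset.Icc 1 (Y + 3 ^ N), f a)
      = (∑ a ∈ Finset.Icc 1 Y, f a) + ∑ a ∈ Finset.Icc 1 (3 ^ N), f a := by
    intro Y
    induction Y with
    | zero => simp
    | succ Y ih =>
      have e1 : Y + 1 + 3 ^ N = (Y + 3 ^ N) + 1 := by ring
      rw [e1, Finset.sum_Icc_succ_top (Nat.le_add_left 1 _), Finset.sum_Icc_succ_top (Nat.le_add_left 1 _),
        ih]
      have e2 : f (Y + 3 ^ N + 1) = f (Y + 1) := by
        have h := hf (Y + 1) (by omega)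
        rw [← h]
        congr 1
        ring
      rw [e2]
      ring
  have hav : (3 : ℝ) ^ N * av N f = ∑ a ∈ Finset.Icc 1 (3 ^ N), f a := by
    unfold av
    have h3 : (3 : ℝ) ^ N ≠ 0 := by positivity
    field_simp
  have hsum0 : ∀ Y : ℕ, 0 ≤ ∑ a ∈ Finset.Icc 1 Y, f a := fun Y =>
    Finset.sum_nonneg fun a _ => h0 a
  have hsum1 : ∀ Y : ℕ, (∑ a ∈ Finset.Icc 1 Y, f a) ≤ Y := by
    intro Y
    calc (∑ a ∈ Finset.Icc 1 Y, f a) ≤ ∑ _a ∈ Finset.Icc 1 Y, (1 : ℝ) :=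
          Finset.sum_le_sum fun a _ => h1 a
      _ = Y := by simp
  have hav0 : 0 ≤ av N f := by
    unfold av
    exact div_nonneg (hsum0 _) (by positivity)
  have hav1 : av N f ≤ 1 := by
    unfold av
    rw [div_le_one (by positivity)]
    have h := hsum1 (3 ^ N)
    push_cast at h
    exact h
  induction X using Nat.strong_induction_on with
  | _ X ih =>
    rcases lt_or_ge X (3 ^ N) with hX | hX
    · have hXr : (X : ℝ) ≤ 3 ^ N := by
        have : (X : ℝ) < ((3 ^ N : ℕ) : ℝ) := by exact_mod_cast hX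
        push_cast at this
        exact this.le
      have a1 := hsum0 X
      have a2 := hsum1 X
      have a3 : 0 ≤ (X : ℝ) * av N f := mul_nonneg (Nat.cast_nonneg X) hav0
      have a4 : (X : ℝ) * av N f ≤ X := by
        calc (X : ℝ) * av N f ≤ X * 1 := mul_le_mul_of_nonneg_left hav1 (Nat.cast_nonneg X)
          _ = X := mul_one _
      rw [abs_le]
      constructor <;> linarith
    · obtain ⟨Y, rfl⟩ := Nat.exists_eq_add_of_le' hX
      have hp : 0 < 3 ^ N := by positivity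
      have h := ih Y (by omega)
      rw [hshift Y]
      have e : (∑ a ∈ Finset.Icc 1 Y, f a) + (∑ a ∈ Finset.Icc 1 (3 ^ N), f a)
          - ((Y + 3 ^ N : ℕ) : ℝ) * av N f = (∑ a ∈ Finset.Icc 1 Y, f a) - Y * av N f := by
        push_cast
        rw [add_mul, hav]
        ring
      rw [e]
      exact h

/-- CNU -/
theorem cnu (ava : AvaStmt) : CnuStmt := by
  classical
  intro m hm r X
  have h2 := ava.2.1 m (fun z : ZMod (3 ^ m) => if IsUnit z ∧ W m z ≤ r then (1 : ℝ) else 0)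
  obtain ⟨hL, hA⟩ := h2
  have hpr : av m (fun a => (fun z : ZMod (3 ^ m) => if IsUnit z ∧ W m z ≤ r then (1 : ℝ) else 0)
      (a : ZMod (3 ^ m))) = pr m r := by
    rw [hA]
    unfold pr
    congr 1
    rw [Finset.sum_boole]
  have hunit : ∀ a : ℕ, IsUnit ((a : ℕ) : ZMod (3 ^ m)) ↔ ¬ 3 ∣ a := by
    intro a
    rw [ZMod.isUnit_iff_coprime]
    constructor
    · intro hc hd
      have h3 : 3 ∣ 3 ^ m := dvd_pow_self 3 (by omega)
      have h4 : 3 ∣ Nat.gcd a (3 ^ m) := Nat.dvd_gcd hd h3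
      rw [hc] at h4
      omega
    · intro hd
      apply Nat.Coprime.pow_right
      exact ((Nat.Prime.coprime_iff_not_dvd Nat.prime_three).mpr hd).symm
  have hcard : (((Finset.Icc 1 X).filter (fun a => ¬ 3 ∣ a ∧ wr m a ≤ r)).card : ℝ)
      = ∑ a ∈ Finset.Icc 1 X, (fun a : ℕ => (fun z : ZMod (3 ^ m) =>
        if IsUnit z ∧ W m z ≤ r then (1 : ℝ) else 0) (a : ZMod (3 ^ m))) a := by
    rw [Finset.card_filter]
    push_cast
    refine Finset.sum_congr rfl fun a _ => ?_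
    show (if (¬ 3 ∣ a ∧ wr m a ≤ r) then (1 : ℝ) else 0)
      = if IsUnit ((a : ℕ) : ZMod (3 ^ m)) ∧ W m ((a : ℕ) : ZMod (3 ^ m)) ≤ r then (1 : ℝ) else 0
    have hiff : (¬ 3 ∣ a ∧ wr m a ≤ r)
        ↔ (IsUnit ((a : ℕ) : ZMod (3 ^ m)) ∧ W m ((a : ℕ) : ZMod (3 ^ m)) ≤ r) := by
      rw [hunit a]
      rfl
    by_cases hc : (¬ 3 ∣ a ∧ wr m a ≤ r)
    · rw [if_pos hc, if_pos (hiff.mp hc)]
    · rw [if_neg hc, if_neg (fun h => hc (hiff.mpr h))]
  have hmain := per_sum65 m (fun a : ℕ => (fun z : ZMod (3 ^ m) =>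
        if IsUnit z ∧ W m z ≤ r then (1 : ℝ) else 0) (a : ZMod (3 ^ m))) hL
    (fun a => by
      show (0 : ℝ) ≤ if IsUnit ((a : ℕ) : ZMod (3 ^ m)) ∧ W m ((a : ℕ) : ZMod (3 ^ m)) ≤ r
        then (1 : ℝ) else 0
      split_ifs <;> norm_num)
    (fun a => by
      show (if IsUnit ((a : ℕ) : ZMod (3 ^ m)) ∧ W m ((a : ℕ) : ZMod (3 ^ m)) ≤ r
        then (1 : ℝ) else 0) ≤ 1
      split_ifs <;> norm_num) X
  rw [hpr] at hmain
  calc |(((Finset.Icc 1 X).filter (fun a => ¬ 3 ∣ a ∧ wr m a ≤ r)).card : ℝ) - X * pr m r|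
      = |(∑ a ∈ Finset.Icc 1 X, (fun a : ℕ => (fun z : ZMod (3 ^ m) =>
        if IsUnit z ∧ W m z ≤ r then (1 : ℝ) else 0) (a : ZMod (3 ^ m))) a) - X * pr m r| := by
        rw [← hcard]
    _ ≤ 3 ^ m := hmain

end Pool.Agent.WR4.H65
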